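import Pool.Agent.R465.QV.Stm

set_option autoImplicit false

namespace Pool.Agent.R380.QV

open Pool.Agent.R465.QV

/-- homogeneity of the value -/
lemma aeval_smul_hom {r m : ℕ} {Q : MvPolynomial (Fin r) ℤ} (hQ : Q.IsHomogeneous m)
    {R : Type*} [CommRing R] (t : R) (w : Fin r → R) :
    MvPolynomial.aeval (fun i => t * w i) Q = t ^ m * MvPolynomial.aeval w Q := by
  rw [MvPolynomial.aeval_def, MvPolynomial.aeval_def, MvPolynomial.eval₂_eq',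
    MvPolynomial.eval₂_eq', Finset.mul_sum]
  refine Finset.sum_congr rfl fun d hd => ?_
  have hdeg : ∑ i, d i = m := by
    have h1 := hQ (MvPolynomial.mem_support_iff.1 hd)
    rw [Finsupp.weight_apply, Finsupp.sum_fintype] at h1
    · simpa using h1
    · intro i; simp
  have h2 : ∏ i, (t * w i) ^ d i = t ^ m * ∏ i, w i ^ d i := by
    rw [← hdeg, ← Finset.prod_pow_eq_pow_sum, ← Finset.prod_mul_distrib]
    exact Finset.prod_congr rfl fun i _ => mul_pow _ _ _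
  rw [h2]
  ring

variable {p : ℕ} [hp : Fact p.Prime]

/-- compatibility with the inclusion -/
lemma aeval_coe {r : ℕ} (Q : MvPolynomial (Fin r) ℤ) (v : Fin r → ℤ_[p]) :
    MvPolynomial.aeval (fun i => (v i : ℚ_[p])) Q = ((MvPolynomial.aeval v Q : ℤ_[p]) : ℚ_[p]) := by
  have h := MvPolynomial.aeval_algebraMap_apply (A := ℤ_[p]) ℚ_[p] v Q
  exact h

/-- every `t` near `1` is an `m`-th power -/
lemma exists_root {m : ℕ} (hm : 1 ≤ m) : ∃ N : ℕ, ∀ t : ℤ_[p],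
    ‖t - 1‖ ≤ (p : ℝ) ^ (-(N : ℤ)) → ∃ u : ℤ_[p], u ^ m = t := by
  have hm0 : (m : ℤ_[p]) ≠ 0 := by
    exact_mod_cast (by omega : m ≠ 0)
  have hpos : 0 < ‖(m : ℤ_[p])‖ ^ 2 := by
    have := norm_pos_iff.2 hm0
    positivity
  obtain ⟨N, hN⟩ := PadicInt.exists_pow_neg_lt p hpos
  refine ⟨N, fun t ht => ?_⟩
  have key := hensels_lemma (p := p) (R := ℤ_[p]) (F := Polynomial.X ^ m - Polynomial.C t)
    (a := (1 : ℤ_[p])) (by
      simp only [map_sub, map_pow, Polynomial.aeval_X,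
        Polynomial.derivative_X_pow, Polynomial.derivative_C, map_mul, one_pow, map_natCast,
        Polynomial.aeval_C, mul_one, sub_zero, Algebra.algebraMap_self_apply]
      rw [norm_sub_rev]
      exact lt_of_le_of_lt ht hN)
  obtain ⟨z, hz, -⟩ := key
  refine ⟨z, ?_⟩
  simp only [map_sub, map_pow, Polynomial.aeval_X, Polynomial.aeval_C,
    Algebra.algebraMap_self_apply] at hz
  exact sub_eq_zero.1 hz

/-- common denominators -/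
lemma clear_den {r m : ℕ} {Q : MvPolynomial (Fin r) ℤ} (hQ : Q.IsHomogeneous m) (c : ℤ_[p])
    (h : ∃ w : Fin r → ℚ_[p], MvPolynomial.aeval w Q = (c : ℚ_[p])) :
    ∃ a : ℕ, ∃ v : Fin r → ℤ_[p], MvPolynomial.aeval v Q = ((p : ℤ_[p]) ^ a) ^ m * c := by
  obtain ⟨w, hw⟩ := h
  have hp1 : (1 : ℝ) < p := by exact_mod_cast hp.out.one_lt
  have h1 : ∀ i, ∃ a : ℕ, ‖w i‖ ≤ (p : ℝ) ^ a := by
    intro i
    obtain ⟨a, ha⟩ := pow_unbounded_of_one_lt ‖w i‖ hp1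
    exact ⟨a, ha.le⟩
  choose a ha using h1
  have h2 : ∀ i, ‖(p : ℚ_[p]) ^ (Finset.univ.sup a) * w i‖ ≤ 1 := by
    intro i
    rw [norm_mul, norm_pow, Padic.norm_p, inv_pow]
    have h3 : ‖w i‖ ≤ (p : ℝ) ^ (Finset.univ.sup a) :=
      (ha i).trans (pow_le_pow_right₀ hp1.le (Finset.le_sup (Finset.mem_univ i)))
    have h4 : (0 : ℝ) < (p : ℝ) ^ (Finset.univ.sup a) := by positivity
    rw [inv_mul_le_iff₀ h4, mul_one]
    exact h3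
  have h6 : ∃ v : Fin r → ℤ_[p], ∀ i, (v i : ℚ_[p]) = (p : ℚ_[p]) ^ (Finset.univ.sup a) * w i :=
    ⟨fun i => ⟨_, h2 i⟩, fun i => rfl⟩
  obtain ⟨v, hv⟩ := h6
  refine ⟨Finset.univ.sup a, v, ?_⟩
  have h7 : ((MvPolynomial.aeval v Q : ℤ_[p]) : ℚ_[p]) =
      ((((p : ℤ_[p]) ^ (Finset.univ.sup a)) ^ m * c : ℤ_[p]) : ℚ_[p]) := by
    rw [← aeval_coe]
    have h5 : (fun i => (v i : ℚ_[p])) =
        fun i => (p : ℚ_[p]) ^ (Finset.univ.sup a) * w i := funext hv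
    rw [h5, aeval_smul_hom hQ, hw]
    push_cast
    rfl
  exact Subtype.coe_injective h7

theorem den : S_DEN := by
  intro r m Q hm hQ p hp
  obtain ⟨N, hN⟩ := exists_root (p := p) hm
  have : NeZero (p ^ N) := ⟨pow_ne_zero _ hp.out.ne_zero⟩
  have hp0 : (p : ℚ_[p]) ≠ 0 := by exact_mod_cast hp.out.ne_zero
  -- finitely many classes
  have hfin : ∀ x : Fin m × ZMod (p ^ N), ∃ A : ℕ, ∀ ε : ℤ_[p]ˣ,
      PadicInt.toZModPow N (ε : ℤ_[p]) = x.2 →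
      (∃ w : Fin r → ℚ_[p], MvPolynomial.aeval w Q =
        (((ε : ℤ_[p]) * (p : ℤ_[p]) ^ (x.1 : ℕ) : ℤ_[p]) : ℚ_[p])) →
      ∃ v : Fin r → ℤ_[p], MvPolynomial.aeval v Q =
        ((p : ℤ_[p]) ^ A) ^ m * ((ε : ℤ_[p]) * (p : ℤ_[p]) ^ (x.1 : ℕ)) := by
    intro x
    by_cases hx : ∃ ε : ℤ_[p]ˣ, PadicInt.toZModPow N (ε : ℤ_[p]) = x.2 ∧
      (∃ w : Fin r → ℚ_[p], MvPolynomial.aeval w Q =
        (((ε : ℤ_[p]) * (p : ℤ_[p]) ^ (x.1 : ℕ) : ℤ_[p]) : ℚ_[p]))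
    · obtain ⟨ε, hε, hw⟩ := hx
      obtain ⟨A, v, hv⟩ := clear_den hQ _ hw
      refine ⟨A, fun ε' hε' _ => ?_⟩
      have h1 : ‖(ε' : ℤ_[p]) - (ε : ℤ_[p])‖ ≤ (p : ℝ) ^ (-(N : ℤ)) := by
        rw [PadicInt.norm_le_pow_iff_mem_span_pow, ← PadicInt.ker_toZModPow, RingHom.mem_ker,
          map_sub, hε, hε', sub_self]
      have h2 : ‖(ε' : ℤ_[p]) * ((ε⁻¹ : ℤ_[p]ˣ) : ℤ_[p]) - 1‖ ≤ (p : ℝ) ^ (-(N : ℤ)) := by
        have h3 : (ε' : ℤ_[p]) * ((ε⁻¹ : ℤ_[p]ˣ) : ℤ_[p]) - 1 =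
            ((ε' : ℤ_[p]) - (ε : ℤ_[p])) * ((ε⁻¹ : ℤ_[p]ˣ) : ℤ_[p]) := by
          rw [sub_mul, Units.mul_inv]
        rw [h3, norm_mul, PadicInt.norm_units, mul_one]
        exact h1
      obtain ⟨u, hu⟩ := hN _ h2
      refine ⟨fun i => u * v i, ?_⟩
      rw [aeval_smul_hom hQ, hv, hu]
      have h4 : (ε' : ℤ_[p]) * ((ε⁻¹ : ℤ_[p]ˣ) : ℤ_[p]) * (ε : ℤ_[p]) = (ε' : ℤ_[p]) := by
        rw [mul_assoc, Units.inv_mul, mul_one]
      calc (ε' : ℤ_[p]) * ((ε⁻¹ : ℤ_[p]ˣ) : ℤ_[p]) *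
            (((p : ℤ_[p]) ^ A) ^ m * ((ε : ℤ_[p]) * (p : ℤ_[p]) ^ (x.1 : ℕ)))
          = ((p : ℤ_[p]) ^ A) ^ m * (((ε' : ℤ_[p]) * ((ε⁻¹ : ℤ_[p]ˣ) : ℤ_[p]) * (ε : ℤ_[p])) *
            (p : ℤ_[p]) ^ (x.1 : ℕ)) := by ring
        _ = _ := by rw [h4]
    · refine ⟨0, fun ε hε hw => absurd ⟨ε, hε, hw⟩ hx⟩
  choose A hA using hfin
  refine ⟨Finset.univ.sup A, fun c hc => ?_⟩
  by_cases hc0 : c = 0
  · refine ⟨fun _ => 0, ?_⟩
    have h1 := aeval_smul_hom hQ (0 : ℤ_[p]) (fun _ => 0)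
    simp only [zero_mul] at h1
    rw [h1, hc0, zero_pow (by omega)]
    ring
  · obtain ⟨w, hw⟩ := hc
    have hspec := PadicInt.unitCoeff_spec hc0
    set ε := PadicInt.unitCoeff hc0 with hεdef
    set n := c.valuation with hn
    have hdiv : m * (n / m) + n % m = n := Nat.div_add_mod n m
    have hlt : n % m < m := Nat.mod_lt _ (by omega)
    have hc' : c = ((ε : ℤ_[p]) * (p : ℤ_[p]) ^ (n % m)) * ((p : ℤ_[p]) ^ (n / m)) ^ m := by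
      rw [← pow_mul, mul_assoc, ← pow_add, mul_comm (n / m) m, add_comm, hdiv]
      exact hspec
    have hw' : ∃ w : Fin r → ℚ_[p], MvPolynomial.aeval w Q =
        (((ε : ℤ_[p]) * (p : ℤ_[p]) ^ (n % m) : ℤ_[p]) : ℚ_[p]) := by
      refine ⟨fun i => ((p : ℚ_[p]) ^ (n / m))⁻¹ * w i, ?_⟩
      rw [aeval_smul_hom hQ, hw]
      have h1 : (c : ℚ_[p]) = (((ε : ℤ_[p]) * (p : ℤ_[p]) ^ (n % m) : ℤ_[p]) : ℚ_[p]) *
          ((p : ℚ_[p]) ^ (n / m)) ^ m := by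
        conv_lhs => rw [hc']
        push_cast
        rfl
      rw [h1, inv_pow]
      have h2 : ((p : ℚ_[p]) ^ (n / m)) ^ m ≠ 0 := pow_ne_zero _ (pow_ne_zero _ hp0)
      field_simp
    obtain ⟨v, hv⟩ := hA (⟨n % m, hlt⟩, PadicInt.toZModPow N (ε : ℤ_[p])) ε rfl hw'
    have hle : A (⟨n % m, hlt⟩, PadicInt.toZModPow N (ε : ℤ_[p])) ≤ Finset.univ.sup A :=
      Finset.le_sup (Finset.mem_univ _)
    obtain ⟨d, hd⟩ := Nat.exists_eq_add_of_le hle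
    refine ⟨fun i => ((p : ℤ_[p]) ^ d * (p : ℤ_[p]) ^ (n / m)) * v i, ?_⟩
    rw [aeval_smul_hom hQ, hv, hd]
    conv_rhs => rw [hc']
    rw [mul_pow, pow_add]
    ring

end Pool.Agent.R380.QV
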